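import Pool.Agent.H218R3.Nr4
import Pool.Agent.H218R3.SdPoly

set_option autoImplicit false

open Polynomial

namespace Pool.Agent.Results.MP_f0bc87_an.AllLargeDegrees

/-- There is an absolute degree bound beyond which the inequality of the question holds for every
`a` in `[0, 1]` and all `z j` in the closed unit disc, with strict inequality when `a < 1`. -/
theorem result :
    ∃ n₀ : ℕ, ∀ m : ℕ, n₀ ≤ m → ∀ a : ℝ, 0 ≤ a → a ≤ 1 →
      ∀ z : Fin m → ℂ, (∀ j, ‖z j‖ ≤ 1) →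
      ((a : ℂ) ∈ (derivative ((X - C (a : ℂ)) * ∏ j, (X - C (z j)))).roots) ∨
      ((m : ℝ) ≤ (((derivative ((X - C (a : ℂ)) * ∏ j, (X - C (z j)))).roots).map
          (fun w : ℂ => (‖w - (a : ℂ)‖ ^ 2)⁻¹)).sum ∧
       (a < 1 → (m : ℝ) < (((derivative ((X - C (a : ℂ)) * ∏ j, (X - C (z j)))).roots).map
          (fun w : ℂ => (‖w - (a : ℂ)‖ ^ 2)⁻¹)).sum)) := by
  obtain ⟨n₀, h⟩ := Filter.eventually_atTop.mp Pool.Agent.H218R3.Sd.below_one
  refine ⟨max n₀ 1, fun m hm a ha ha' z hz => ?_⟩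
  have hm1 : n₀ ≤ m := le_trans (le_max_left _ _) hm
  have hm2 : 0 < m := lt_of_lt_of_le one_pos (le_trans (le_max_right _ _) hm)
  by_cases hroot : (a : ℂ) ∈ (derivative ((X - C (a : ℂ)) * ∏ j, (X - C (z j)))).roots
  · exact Or.inl hroot
  · right
    have hstrict : a < 1 → (m : ℝ) <
        (((derivative ((X - C (a : ℂ)) * ∏ j, (X - C (z j)))).roots).map
          (fun w : ℂ => (‖w - (a : ℂ)‖ ^ 2)⁻¹)).sum := by
      intro ha1
      by_contra hc
      rw [not_lt] at hc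
      obtain ⟨w, hw⟩ := Pool.Agent.H218R3.Sd.exists_CE ha ha' hz hroot hc
      exact h m hm1 a ha ha1 z w hw
    refine ⟨?_, hstrict⟩
    rcases ha'.lt_or_eq with ha1 | ha1
    · exact (hstrict ha1).le
    · subst ha1
      by_contra hc
      rw [not_le] at hc
      obtain ⟨w, hw, hsum⟩ := Pool.Agent.H218R3.Sd.exists_CE' ha le_rfl hz hroot hc.le
      have h1 := Pool.Agent.H218R3.Sd.at_one hw hm2
      have h2 : Pool.Agent.H218R3.Sd.II 1 w =
          ∑ k, (‖w k - ((1 : ℝ) : ℂ)‖ ^ 2)⁻¹ := by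
        unfold Pool.Agent.H218R3.Sd.II
        exact Finset.sum_congr rfl (fun k _ => hw.norm_yy k)
      rw [h2, hsum] at h1
      linarith

end Pool.Agent.Results.MP_f0bc87_an.AllLargeDegrees
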