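import Pool.Agent.H218R3.Col3

set_option autoImplicit false

open Polynomial

namespace Pool.Agent.Results.MP_f0bc87_an.CollinearZeros

/-- If all zeros `a`, `z j` lie on a line, then `M₋₁ ≤ 1`, hence `M₋₂ ≤ 1`, in every degree. -/
theorem result (m : ℕ) (a : ℝ) (ha : 0 ≤ a) (ha' : a ≤ 1) (z : Fin m → ℂ)
    (hz : ∀ j, ‖z j‖ ≤ 1) (hline : ∃ u : ℂ, ∀ j, ∃ t : ℝ, z j = a + t * u) :
    ((a : ℂ) ∈ (derivative ((X - C (a : ℂ)) * ∏ j, (X - C (z j)))).roots) ∨
    ((m : ℝ) ≤ (((derivative ((X - C (a : ℂ)) * ∏ j, (X - C (z j)))).roots).map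
        (fun w : ℂ => (‖w - (a : ℂ)‖)⁻¹)).sum ∧
     (m : ℝ) ≤ (((derivative ((X - C (a : ℂ)) * ∏ j, (X - C (z j)))).roots).map
        (fun w : ℂ => (‖w - (a : ℂ)‖ ^ 2)⁻¹)).sum) := by
  set P : ℂ[X] := (X - C (a : ℂ)) * ∏ j, (X - C (z j)) with hP
  have hG : (∏ j, (X - C (z j)) : ℂ[X]).Monic := monic_prod_of_monic _ _ fun j _ => monic_X_sub_C _
  have hmonic : P.Monic := (monic_X_sub_C _).mul hG
  have hroots : P.roots = (a : ℂ) ::ₘ (Finset.univ.val.map z) := by
    rw [hP, roots_mul hmonic.ne_zero, roots_X_sub_C]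
    have h1 : (∏ j, (X - C (z j)) : ℂ[X]) = ((Finset.univ.val.map z).map (fun w => X - C w)).prod := by
      rw [Multiset.map_map]
      rfl
    rw [h1, roots_multiset_prod_X_sub_C]
    rfl
  have hdeg : P.natDegree = m + 1 := by
    rw [hP, natDegree_mul (monic_X_sub_C _).ne_zero hG.ne_zero, natDegree_X_sub_C,
      natDegree_prod_of_monic _ _ (fun j _ => monic_X_sub_C _)]
    simp
    ring
  have hmem : ∀ w ∈ P.roots, w = a ∨ ∃ j, w = z j := by
    intro w hw
    rw [hroots, Multiset.mem_cons, Multiset.mem_map] at hw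
    rcases hw with h | ⟨j, _, h⟩
    · exact Or.inl h
    · exact Or.inr ⟨j, h.symm⟩
  have hd0 : P.derivative ≠ 0 := by
    intro h
    have := derivative_eq_zero.mp h
    omega
  by_cases hd : P.derivative.eval (a : ℂ) = 0
  · left
    exact (mem_roots hd0).mpr hd
  · right
    have hcardd : Multiset.card P.derivative.roots = m := by
      rw [splits_iff_card_roots.mp (IsAlgClosed.splits P.derivative), natDegree_derivative, hdeg]
      rfl
    have h1 : (m : ℝ) ≤ (P.derivative.roots.map (fun w : ℂ => (‖w - (a : ℂ)‖)⁻¹)).sum := by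
      have h2 := Pool.Agent.H218R3.Col.poly_collinear (P := P) (a := (a : ℂ))
        (by rw [hroots]; exact Multiset.mem_cons_self _ _)
        (by
          intro w hw
          rcases hmem w hw with rfl | ⟨j, rfl⟩
          · rw [Complex.norm_real, Real.norm_of_nonneg ha]; exact ha'
          · exact hz j)
        (by
          obtain ⟨u, hu⟩ := hline
          refine ⟨u, fun w hw => ?_⟩
          rcases hmem w hw with rfl | ⟨j, rfl⟩
          · exact ⟨0, by simp⟩
          · exact hu j) hd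
      rw [hdeg] at h2
      simp only [Nat.add_sub_cancel] at h2
      refine h2.trans (le_of_eq ?_)
      congr 1
      apply Multiset.map_congr rfl
      intro w _
      rw [norm_sub_rev]
    refine ⟨h1, ?_⟩
    have h3 : ∀ M : Multiset ℂ, 2 * (M.map (fun w : ℂ => (‖w - (a : ℂ)‖)⁻¹)).sum -
        Multiset.card M ≤ (M.map (fun w : ℂ => (‖w - (a : ℂ)‖ ^ 2)⁻¹)).sum := by
      intro M
      induction M using Multiset.induction_on with
      | empty => simp
      | cons w M ih =>
        rw [Multiset.map_cons, Multiset.sum_cons, Multiset.map_cons, Multiset.sum_cons,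
          Multiset.card_cons]
        push_cast
        have h4 : 2 * (‖w - (a : ℂ)‖)⁻¹ - 1 ≤ (‖w - (a : ℂ)‖ ^ 2)⁻¹ := by
          rw [← inv_pow]
          nlinarith [sq_nonneg ((‖w - (a : ℂ)‖)⁻¹ - 1)]
        linarith
    have h5 := h3 P.derivative.roots
    rw [hcardd] at h5
    linarith

end Pool.Agent.Results.MP_f0bc87_an.CollinearZeros
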