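import Pool.Agent.H565.Pm.Main

set_option autoImplicit false

open Polynomial

/-!
# MP_f0bc87_an: degrees at most five, with the exponent `-1`

`p(x) = (x - a) ∏ (x - z_j)`, `j < m`, degree `n = m + 1`, `0 ≤ a ≤ 1`, `|z_j| ≤ 1`.

(1) If `n ≤ 5` then `a` is a critical point of `p` or `∑ 1/|w - a| ≥ n - 1`, the sum over the
critical points `w` with multiplicity, i.e. even the harmonic mean `M_{-1}` of the distances is at
most `1`; hence also `∑ 1/|w - a|^2 ≥ n - 1`. Both inequalities are strict if `a < 1`.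

(2) The same for every degree `n`, and every `a < 1` for which
`(1 + a - a^2)^n - a^n < n (1 - a^2)`.

(3) The same (with `≥`) for every degree and `a = 1`.
-/

namespace Pool.Agent.Results.MP_f0bc87_an.DegreesUpToFive

theorem result :
    (∀ m : ℕ, 1 ≤ m → m ≤ 4 → ∀ a : ℝ, 0 ≤ a → a ≤ 1 → ∀ z : Fin m → ℂ, (∀ j, ‖z j‖ ≤ 1) →
      ((a : ℂ) ∈ (derivative ((X - C (a : ℂ)) * ∏ j, (X - C (z j)))).roots) ∨
      ((m : ℝ) ≤ (((derivative ((X - C (a : ℂ)) * ∏ j, (X - C (z j)))).roots).map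
          (fun w : ℂ => ‖w - (a : ℂ)‖⁻¹)).sum ∧
       (m : ℝ) ≤ (((derivative ((X - C (a : ℂ)) * ∏ j, (X - C (z j)))).roots).map
          (fun w : ℂ => (‖w - (a : ℂ)‖ ^ 2)⁻¹)).sum ∧
       (a < 1 →
        (m : ℝ) < (((derivative ((X - C (a : ℂ)) * ∏ j, (X - C (z j)))).roots).map
          (fun w : ℂ => ‖w - (a : ℂ)‖⁻¹)).sum ∧
        (m : ℝ) < (((derivative ((X - C (a : ℂ)) * ∏ j, (X - C (z j)))).roots).map
          (fun w : ℂ => (‖w - (a : ℂ)‖ ^ 2)⁻¹)).sum))) ∧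
    (∀ m : ℕ, 1 ≤ m → ∀ a : ℝ, 0 ≤ a → a < 1 →
      (1 + a - a ^ 2) ^ (m + 1) - a ^ (m + 1) < (m + 1) * (1 - a ^ 2) →
      ∀ z : Fin m → ℂ, (∀ j, ‖z j‖ ≤ 1) →
      ((a : ℂ) ∈ (derivative ((X - C (a : ℂ)) * ∏ j, (X - C (z j)))).roots) ∨
      ((m : ℝ) < (((derivative ((X - C (a : ℂ)) * ∏ j, (X - C (z j)))).roots).map
          (fun w : ℂ => ‖w - (a : ℂ)‖⁻¹)).sum ∧
       (m : ℝ) < (((derivative ((X - C (a : ℂ)) * ∏ j, (X - C (z j)))).roots).map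
          (fun w : ℂ => (‖w - (a : ℂ)‖ ^ 2)⁻¹)).sum)) ∧
    (∀ m : ℕ, 1 ≤ m → ∀ z : Fin m → ℂ, (∀ j, ‖z j‖ ≤ 1) →
      ((1 : ℂ) ∈ (derivative ((X - C (1 : ℂ)) * ∏ j, (X - C (z j)))).roots) ∨
      ((m : ℝ) ≤ (((derivative ((X - C (1 : ℂ)) * ∏ j, (X - C (z j)))).roots).map
          (fun w : ℂ => ‖w - 1‖⁻¹)).sum ∧
       (m : ℝ) ≤ (((derivative ((X - C (1 : ℂ)) * ∏ j, (X - C (z j)))).roots).map
          (fun w : ℂ => (‖w - 1‖ ^ 2)⁻¹)).sum)) := by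
  have key : ∀ m : ℕ, 1 ≤ m → ∀ a : ℝ, 0 ≤ a → a < 1 →
      (1 + a - a ^ 2) ^ (m + 1) - a ^ (m + 1) < (m + 1) * (1 - a ^ 2) →
      ∀ z : Fin m → ℂ, (∀ j, ‖z j‖ ≤ 1) →
      ((a : ℂ) ∈ (derivative ((X - C (a : ℂ)) * ∏ j, (X - C (z j)))).roots) ∨
      ((m : ℝ) < (((derivative ((X - C (a : ℂ)) * ∏ j, (X - C (z j)))).roots).map
          (fun w : ℂ => ‖w - (a : ℂ)‖⁻¹)).sum ∧
       (m : ℝ) < (((derivative ((X - C (a : ℂ)) * ∏ j, (X - C (z j)))).roots).map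
          (fun w : ℂ => (‖w - (a : ℂ)‖ ^ 2)⁻¹)).sum) := by
    intro m hm a ha0 ha1 hH z hz
    obtain ⟨w, hr, hw⟩ := Pool.Agent.H565.Pm.exists_w a z
    unfold Pool.Agent.H565.Pm.P at hr
    rw [hr]
    by_cases hmem : (a : ℂ) ∈ Multiset.map w Finset.univ.val
    · exact Or.inl hmem
    · right
      have hne : ∀ k, w k ≠ a := fun k hk => hmem
        (Multiset.mem_map.2 ⟨k, Finset.mem_univ k, hk⟩)
      have h1 := Pool.Agent.H565.Pm.lt_one_case hm ha0 ha1 z w hz hw hne hH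
      have h2 := Pool.Agent.H565.Pm.to_sq_lt hm _ h1
      simp only [Multiset.map_map, Function.comp_def]
      refine ⟨h1, ?_⟩
      simp only [inv_pow] at h2
      exact h2
  have key1 : ∀ m : ℕ, 1 ≤ m → ∀ z : Fin m → ℂ, (∀ j, ‖z j‖ ≤ 1) →
      (((1 : ℝ) : ℂ) ∈ (derivative ((X - C ((1 : ℝ) : ℂ)) * ∏ j, (X - C (z j)))).roots) ∨
      ((m : ℝ) ≤ (((derivative ((X - C ((1 : ℝ) : ℂ)) * ∏ j, (X - C (z j)))).roots).map
          (fun w : ℂ => ‖w - ((1 : ℝ) : ℂ)‖⁻¹)).sum ∧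
       (m : ℝ) ≤ (((derivative ((X - C ((1 : ℝ) : ℂ)) * ∏ j, (X - C (z j)))).roots).map
          (fun w : ℂ => (‖w - ((1 : ℝ) : ℂ)‖ ^ 2)⁻¹)).sum) := by
    intro m hm z hz
    obtain ⟨w, hr, hw⟩ := Pool.Agent.H565.Pm.exists_w 1 z
    have hr' := hr
    unfold Pool.Agent.H565.Pm.P at hr
    rw [hr]
    by_cases hmem : (((1 : ℝ) : ℂ)) ∈ Multiset.map w Finset.univ.val
    · exact Or.inl hmem
    · right
      have hne : ∀ k, w k ≠ ((1 : ℝ) : ℂ) := fun k hk => hmem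
        (Multiset.mem_map.2 ⟨k, Finset.mem_univ k, hk⟩)
      have h1 := Pool.Agent.H565.Pm.one_case z w hz hr' hw hne
      have h2 := Pool.Agent.H565.Pm.to_sq_le hm _ h1
      simp only [Multiset.map_map, Function.comp_def]
      refine ⟨h1, ?_⟩
      simp only [inv_pow] at h2
      exact h2
  refine ⟨?_, key, ?_⟩
  · intro m hm hm4 a ha0 ha1 z hz
    rcases ha1.lt_or_eq with ha | ha
    · rcases key m hm a ha0 ha (Pool.Agent.H565.Pm.cond_small hm hm4 ha0 ha) z hz with h | h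
      · exact Or.inl h
      · exact Or.inr ⟨h.1.le, h.2.le, fun _ => h⟩
    · subst ha
      rcases key1 m hm z hz with h | h
      · exact Or.inl h
      · exact Or.inr ⟨h.1, h.2, fun h' => absurd h' (lt_irrefl _)⟩
  · intro m hm z hz
    have h := key1 m hm z hz
    simpa only [Complex.ofReal_one] using h

end Pool.Agent.Results.MP_f0bc87_an.DegreesUpToFive
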