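import Mathlib
import Pool.Agent.H363R3.SM2u

set_option autoImplicit false
open Polynomial

namespace Pool.Agent.Results.MP_f0bc87_an.ExplicitDegree

/-- The order `-2` power mean inequality of Q1 holds for every number `m ≥ 10 ^ 29` of further zeros (degree
`n = m + 1`), every distinguished zero `0 ≤ a ≤ 1` and all other zeros in the closed unit disc. -/
theorem result (m : ℕ) (hm : 10 ^ 29 ≤ m) (a : ℝ) (ha0 : 0 ≤ a) (ha1 : a ≤ 1)
    (z : Fin m → ℂ) (hz : ∀ j, ‖z j‖ ≤ 1) :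
    ((a : ℂ) ∈ (derivative ((X - C (a : ℂ)) * ∏ j, (X - C (z j)))).roots) ∨
      (m : ℝ) ≤ (((derivative ((X - C (a : ℂ)) * ∏ j, (X - C (z j)))).roots).map
          (fun w : ℂ => (‖w - (a : ℂ)‖ ^ 2)⁻¹)).sum :=
  Pool.H363R3.SM2.explicit m hm a ha0 ha1 z hz

end Pool.Agent.Results.MP_f0bc87_an.ExplicitDegree
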